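import Pool.Agent.T9h72.KU.Spec

/-!
# (KUP) the upper bound at a knot
-/

set_option autoImplicit false

namespace Pool.Agent.T9h64.KU

open MeasureTheory ProbabilityTheory Set Filter Topology Pool.Agent.R190.KR Pool.Agent.T9h72.KU

/-- the odd extension of `S` on `[1/2, β]` and the line with slope `a` on `[β, 1]` -/
noncomputable def gs (n m : ℕ) (β a x : ℝ) : ℝ := hatS n m β x + a * (x - clamp β x)

section

variable (n m : ℕ) {β a : ℝ}

theorem gs_mid (hβ : 1 / 2 ≤ β) {x : ℝ} (h1 : 1 / 2 ≤ x) (h2 : x ≤ β) :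
    gs n m β a x = S n m x := by
  unfold gs hatS
  rw [clamp_of_mem (by linarith) h2]
  ring

theorem gs_ge (hβ : 1 / 2 ≤ β) {x : ℝ} (h1 : β ≤ x) :
    gs n m β a x = S n m β + a * (x - β) := by
  unfold gs hatS
  rw [clamp_of_ge hβ h1]

theorem gs_one_sub (hβ : 1 / 2 ≤ β) (x : ℝ) : gs n m β a (1 - x) = -gs n m β a x := by
  unfold gs
  rw [hatS_one_sub n m hβ, clamp_one_sub hβ]
  ring

theorem measurable_gs : Measurable (gs n m β a) := by
  unfold gs
  have h1 : Measurable (clamp β) := by unfold clamp; fun_prop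
  exact (measurable_hatS n m β).add ((measurable_id.sub h1).const_mul a)

theorem gs_bound (hβ : β ∈ Ioo (1 / 2 : ℝ) 1) (ha : 0 < a) {B : ℝ}
    (hB : ∀ x ∈ Icc (0 : ℝ) 1, |S n m x| ≤ B) : ∀ x ∈ Icc (0 : ℝ) 1, |gs n m β a x| ≤ B + a := by
  intro x hx
  unfold gs
  refine (abs_add_le _ _).trans (add_le_add (hatS_bound n m hβ hB x) ?_)
  have := clamp_mem hβ.1.le x
  rw [abs_mul, abs_of_pos ha]
  have h1 : |x - clamp β x| ≤ 1 := by
    rw [abs_le]
    constructor
    · linarith [this.2, hx.1, hβ.2]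
    · linarith [this.1, hx.2, hβ.2]
  nlinarith

theorem S_pos_of_mono (hβ : β ∈ Ioo (1 / 2 : ℝ) 1)
    (hmono : StrictMonoOn (S n m) (Icc (1 / 2) β)) : 0 < S n m β := by
  rw [← S_half n m]
  exact hmono ⟨le_rfl, hβ.1.le⟩ ⟨hβ.1.le, le_rfl⟩ hβ.1

theorem V_pos (hβ : β ∈ Ioo (1 / 2 : ℝ) 1) (ha : 0 < a) (hS : 0 < S n m β) :
    0 < V n m β a := by
  unfold V
  have h1 : 0 ≤ ∫ x in (1 / 2 : ℝ)..β, S n m x ^ 2 :=
    intervalIntegral.integral_nonneg hβ.1.le fun x _ => sq_nonneg _
  have h2 : 0 < ∫ x in β..1, (S n m β + a * (x - β)) ^ 2 := by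
    apply intervalIntegral.intervalIntegral_pos_of_pos_on
    · apply Continuous.intervalIntegrable
      fun_prop
    · intro x hx
      have : 0 < S n m β + a * (x - β) := by
        have := mul_nonneg ha.le (sub_nonneg.2 hx.1.le)
        linarith
      positivity
    · exact hβ.2
  linarith

theorem integral_gs_sq (hm : 1 ≤ m) (hβ : β ∈ Ioo (1 / 2 : ℝ) 1) (ha : 0 < a) :
    ∫ x in Ioo (0 : ℝ) 1, gs n m β a x ^ 2 = 2 * V n m β a := by
  obtain ⟨B, hB⟩ := exists_bound_S n m hm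
  have hb := gs_bound n m hβ ha hB
  have hi := ii_of_bound (q := fun x => gs n m β a x ^ 2) ((measurable_gs n m).pow_const 2)
    (B := (B + a) ^ 2) (fun x hx => by
      rw [abs_pow]; exact pow_le_pow_left₀ (abs_nonneg _) (hb x hx) 2)
  rw [even_integral (fun x _ => by rw [gs_one_sub n m hβ.1.le]; ring) hi,
    ← intervalIntegral.integral_add_adjacent_intervals (hi (1 / 2) β (by norm_num) hβ.1.le hβ.2.le)
      (hi β 1 (by linarith [hβ.1]) hβ.2.le le_rfl)]
  unfold V
  congr 2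
  · apply intervalIntegral.integral_congr
    intro x hx
    rw [uIcc_of_le hβ.1.le] at hx
    dsimp only
    rw [gs_mid n m hβ.1.le hx.1 hx.2]
  · apply intervalIntegral.integral_congr
    intro x hx
    rw [uIcc_of_le hβ.2.le] at hx
    dsimp only
    rw [gs_ge n m hβ.1.le hx.1]

end

theorem kup : S_OPT → S_PAT → S_KUP := by
  intro hOPT hPAT n m hn hm β a hk μ hμ
  have hβ := hk.mem
  have ha := hk.pos
  have h := hμ.sym
  obtain ⟨B, hB⟩ := exists_bound_S n m hm
  have hb := gs_bound n m hβ ha hB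
  have hSβ := S_pos_of_mono n m hβ hk.mono
  obtain ⟨c, hc, hcpos, hcmax, hcmono, hcanti⟩ :=
    exists_peak n m hn hm ⟨β, ⟨hβ.1.le, hβ.2.le⟩, hSβ⟩
  have hβc : β ≤ c := by
    by_contra hlt
    push Not at hlt
    have hkm : StrictMonoOn (S n m) (Icc (1 / 2) β) := hk.mono
    have h1 := hkm (show c ∈ Icc (1 / 2) β from ⟨hc.1.le, hlt.le⟩) ⟨hβ.1.le, le_rfl⟩ hlt
    have h2 := hcmax β ⟨hβ.1.le, hβ.2.le⟩
    linarith
  obtain ⟨c1, c2, hc1, hc12, hc2, p1, p2, p3⟩ :=
    hPAT n m hn hm c ⟨hc, hcpos, hcmax, hcmono, hcanti⟩ β ⟨hβ.1.le, hβc⟩ a ha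
  have hms := measurable_S n m
  have hmh : Measurable (gs n m β a) := measurable_gs n m
  have hBd : ∀ x ∈ Icc (0 : ℝ) 1, |S n m x - gs n m β a x| ≤ B + (B + a) := by
    intro x hx
    exact (abs_sub _ _).trans (add_le_add (hB x hx) (hb x hx))
  have hi := ii_of_bound (q := fun x => S n m x - gs n m β a x) (hms.sub hmh) hBd
  have hiS := intervalIntegrable_S n m hm (a := β) (b := 1) (by linarith [hβ.1]) hβ.2.le
    zero_le_one le_rfl
  -- the integrals of `φ`
  have e2 : ∫ x in β..1, (S n m x - gs n m β a x) = 0 := by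
    rw [← hk.mom0]
    apply intervalIntegral.integral_congr
    intro x hx
    rw [uIcc_of_le hβ.2.le] at hx
    dsimp only
    rw [gs_ge n m hβ.1.le hx.1]
  have e3 : ∫ x in β..1, (S n m x - gs n m β a x) * (x - β) = 0 := by
    rw [← hk.mom1]
    apply intervalIntegral.integral_congr
    intro x hx
    rw [uIcc_of_le hβ.2.le] at hx
    dsimp only
    rw [gs_ge n m hβ.1.le hx.1]
  have i1 : ∫ x in (1 / 2 : ℝ)..1, (S n m x - gs n m β a x) = 0 := by
    rw [← intervalIntegral.integral_add_adjacent_intervals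
        (hi (1 / 2) β (by norm_num) hβ.1.le hβ.2.le) (hi β 1 (by linarith [hβ.1]) hβ.2.le le_rfl),
      e2, add_zero]
    have e1 : ∫ x in (1 / 2 : ℝ)..β, (S n m x - gs n m β a x) =
        ∫ x in (1 / 2 : ℝ)..β, (0 : ℝ) := by
      apply intervalIntegral.integral_congr
      intro x hx
      rw [uIcc_of_le hβ.1.le] at hx
      dsimp only
      rw [gs_mid n m hβ.1.le hx.1 hx.2, sub_self]
    rw [e1]
    simp
  have hi2 := ii_of_bound (q := fun x => (S n m x - gs n m β a x) * (x - 1 / 2))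
    ((hms.sub hmh).mul (measurable_id.sub_const _)) (B := (B + (B + a)) * 1) (fun x hx => by
      rw [abs_mul]
      refine mul_le_mul (hBd x hx) ?_ (abs_nonneg _) ((abs_nonneg _).trans (hBd x hx))
      rw [abs_le]
      constructor
      · linarith [hx.1]
      · linarith [hx.2])
  have i2 : ∫ x in (1 / 2 : ℝ)..1, (S n m x - gs n m β a x) * (x - 1 / 2) = 0 := by
    rw [← intervalIntegral.integral_add_adjacent_intervals
        (hi2 (1 / 2) β (by norm_num) hβ.1.le hβ.2.le) (hi2 β 1 (by linarith [hβ.1]) hβ.2.le le_rfl)]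
    have e1 : ∫ x in (1 / 2 : ℝ)..β, (S n m x - gs n m β a x) * (x - 1 / 2) =
        ∫ x in (1 / 2 : ℝ)..β, (0 : ℝ) := by
      apply intervalIntegral.integral_congr
      intro x hx
      rw [uIcc_of_le hβ.1.le] at hx
      dsimp only
      rw [gs_mid n m hβ.1.le hx.1 hx.2, sub_self, zero_mul]
    have e4 : ∫ x in β..1, (S n m x - gs n m β a x) * (x - 1 / 2) =
        (∫ x in β..1, (S n m x - gs n m β a x) * (x - β)) +
          (β - 1 / 2) * ∫ x in β..1, (S n m x - gs n m β a x) := by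
      rw [← intervalIntegral.integral_const_mul, ← intervalIntegral.integral_add]
      · apply intervalIntegral.integral_congr
        intro x _
        dsimp only
        ring
      · exact ((hi β 1 (by linarith [hβ.1]) hβ.2.le le_rfl).mul_continuousOn
          (by fun_prop))
      · exact (hi β 1 (by linarith [hβ.1]) hβ.2.le le_rfl).const_mul _
    rw [e1, e4, e2, e3]
    simp
  have h1 := hOPT μ hμ (fun x => S n m x - gs n m β a x) (hms.sub hmh) (B + (B + a)) hBd
    (fun x _ => by rw [gs_one_sub n m hβ.1.le, S_one_sub]; ring) c1 c2 (by linarith [hβ.1]) hc12 hc2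
    (fun x hx => by
      rcases le_total x β with h5 | h5
      · rw [gs_mid n m hβ.1.le hx.1 h5, sub_self]
      · rw [gs_ge n m hβ.1.le h5]
        linarith [p1 x ⟨h5, hx.2⟩])
    (fun x hx => by
      rw [gs_ge n m hβ.1.le (hc1.trans hx.1)]
      linarith [p2 x hx])
    (fun x hx => by
      rw [gs_ge n m hβ.1.le ((hc1.trans hc12).trans hx.1)]
      linarith [p3 x hx])
    (Or.inr i1.ge) i2.le
  have h2 := h.cs hmh (B := B + a) hb (V := 2 * V n m β a)
    (by have := V_pos n m hβ ha hSβ; positivity) (integral_gs_sq n m hm hβ ha)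
  have h3 : ∫ t, (t - mean μ) * (S n m (cdf μ t) - gs n m β a (cdf μ t)) ∂μ =
      (∫ t, (t - mean μ) * S n m (cdf μ t) ∂μ) - ∫ t, (t - mean μ) * gs n m β a (cdf μ t) ∂μ := by
    rw [← integral_sub (h.int_mul hms hB) (h.int_mul hmh hb)]
    congr 1
    funext t
    ring
  rw [h3] at h1
  linarith

end Pool.Agent.T9h64.KU
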