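import Pool.Agent.T9h72.KU.Spec

/-!
# (LP) where `ψ < 0` and `ψ² + ψ' ≥ 0` and `S ≥ 0` one has `S' ≤ 0`
-/

set_option autoImplicit false

namespace Pool.Agent.T9h64.KU

open Set Pool.Agent.R190.KR Pool.Agent.T9h72.KU

theorem lp_core {u v a b L z ν N R : ℝ} (hu : 0 < u) (hv : 0 < v) (huv : u + v = 1) (hb : 0 < b)
    (hab : b < a) (hL : 0 < L) (hI : u * (a - b) ^ 2 / (a * b) ≤ L)
    (hG : (u * a) ^ 2 - (v * b) ^ 2 < u * v * a * b * (a - b)) (hz : 0 < z) (hν : 0 ≤ ν)
    (hN : N * L = ν + z * (a - b)) (hq : N ≤ a ^ 2 * z * (z - 1)) (hR : 1 + ν ≤ R) :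
    u * (N * (a - b) / (a * b) - z) ≤ R * z * v := by
  have ha : 0 < a := hb.trans hab
  obtain ⟨c, hc⟩ : ∃ c, c = a - b := ⟨_, rfl⟩
  have hc0 : 0 < c := by rw [hc]; linarith
  rw [← hc] at hI hG hN ⊢
  -- (3)
  have h3 : u * a ≤ u * v * a * c + v * b := by
    rcases le_total (u * a) (v * b) with h | h
    · have : 0 ≤ u * v * a * c := by positivity
      linarith
    · have e1 : b ≤ u * a + v * b := by nlinarith
      have e2 : (u * a - v * b) * b ≤ (u * a - v * b) * (u * a + v * b) :=
        mul_le_mul_of_nonneg_left e1 (by linarith)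
      have e3 : (u * a - v * b) * b < u * v * a * c * b := by nlinarith
      have e4 := lt_of_mul_lt_mul_right e3 hb.le
      linarith
  -- (4)
  have h4 : c ≤ a ^ 2 * (z - 1) * L := by
    have e1 : N * L ≤ a ^ 2 * z * (z - 1) * L := mul_le_mul_of_nonneg_right hq hL.le
    have e2 : z * c ≤ z * (a ^ 2 * (z - 1) * L) := by nlinarith
    exact le_of_mul_le_mul_left e2 hz
  -- (1)
  have h1 : u * c ^ 2 ≤ a * b * L := by
    rw [div_le_iff₀ (by positivity)] at hI
    linarith
  -- (2)
  have h2 : u * c ≤ z * v * (a * b * L) := by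
    have e1 : a ^ 2 * L + c ≤ z * (a ^ 2 * L) := by nlinarith
    have e2 : v * b * (u * a * c ^ 2 + b * c) ≤ v * b * (z * (a ^ 2 * L) * b) := by
      have : u * a * c ^ 2 + b * c ≤ z * (a ^ 2 * L) * b := by
        have f1 : a * (u * c ^ 2) ≤ a * (a * b * L) := mul_le_mul_of_nonneg_left h1 ha.le
        have f2 : (a ^ 2 * L + c) * b ≤ z * (a ^ 2 * L) * b := mul_le_mul_of_nonneg_right e1 hb.le
        nlinarith
      exact mul_le_mul_of_nonneg_left this (by positivity)
    have e3 : c * b * (u * a) ≤ c * b * (u * v * a * c + v * b) :=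
      mul_le_mul_of_nonneg_left h3 (by positivity)
    have e4 : (a * b) * (u * c) ≤ (a * b) * (z * v * (a * b * L)) := by nlinarith
    exact le_of_mul_le_mul_left e4 (by positivity)
  have hP : 0 < a * b * L := by positivity
  have hNe : N * c / (a * b) = (ν + z * c) * c / (a * b * L) := by
    rw [← hN]
    field_simp
  have hgoal : u * (N * c / (a * b)) ≤ u * z + (1 + ν) * z * v := by
    rw [hNe, ← mul_div_assoc, div_le_iff₀ hP]
    have f1 : z * (u * c ^ 2) ≤ z * (a * b * L) := mul_le_mul_of_nonneg_left h1 hz.le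
    have f2 : ν * (u * c) ≤ ν * (z * v * (a * b * L)) := mul_le_mul_of_nonneg_left h2 hν
    have f3 : u * z + (1 + ν) * z * v = z + ν * z * v := by
      have : v = 1 - u := by linarith
      rw [this]; ring
    rw [f3]
    nlinarith
  have hR' : (1 + ν) * (z * v) ≤ R * (z * v) := mul_le_mul_of_nonneg_right hR (by positivity)
  nlinarith

theorem lp : S_G0 → S_I1 → S_LP := by
  intro hG0 hI1 n m hn x hx hpsi hq hS
  have hx0 : 0 < x := by linarith [hx.1]
  have hu : 0 < 1 - x := by linarith [hx.2]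
  have hA := A_pos hx0 hx.2
  have hB := A_pos (x := 1 - x) hu (by linarith)
  have hab : A (1 - x) < A x := by
    rw [A_one_sub]; unfold A
    have := Real.log_lt_log (x := 1 - x) (y := x) hu (by linarith [hx.1])
    linarith
  have hg := hG0 x hx
  have hi := hI1 x hx
  have hGx := G_pos n m hx0 hx.2
  have hGy := G_pos n m (x := 1 - x) hu (by linarith)
  have hexp : G n m x = Real.exp (-(u n m x)) * G n m (1 - x) := by
    rw [G_eq_exp n m hx0 hx.2, G_eq_exp n m (x := 1 - x) hu (by linarith), ← Real.exp_add]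
    congr 1
    unfold u
    ring
  have hν : 0 ≤ -(u n m x) := by
    by_contra hcon
    push Not at hcon
    have h1 : Real.exp (-(u n m x)) < 1 := by
      rw [← Real.exp_zero]
      exact Real.exp_lt_exp.2 hcon
    unfold S at hS
    nlinarith
  have hlog : Real.log (A x / A (1 - x)) = Real.log (A x) - Real.log (A (1 - x)) :=
    Real.log_div hA.ne' hB.ne'
  have hL : 0 < Real.log (A x / A (1 - x)) - 1 + A (1 - x) / A x := by
    have h1 := Real.add_one_lt_exp (x := -Real.log (A x / A (1 - x))) (by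
      rw [neg_ne_zero]
      exact (Real.log_pos ((one_lt_div hB).2 hab)).ne')
    rw [Real.exp_neg, Real.exp_log (by positivity), inv_div] at h1
    linarith
  obtain ⟨z, hz⟩ : ∃ z : ℝ, z = m - n / A x := ⟨_, rfl⟩
  have hz0 : 0 < z := by
    unfold psi at hpsi
    rw [div_neg_iff] at hpsi
    rcases hpsi with h | h
    · linarith [h.2]
    · linarith [h.1]
  have hq' : (n : ℝ) ≤ A x ^ 2 * z * (z - 1) := by
    unfold psi psi' at hq
    have e1 : ((n / A x - m) / (1 - x)) ^ 2 + ((n / A x - m) - n / A x ^ 2) / (1 - x) ^ 2 =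
        (z * (z - 1) - n / A x ^ 2) / (1 - x) ^ 2 := by
      rw [hz]
      field_simp
      ring
    rw [e1] at hq
    have e2 : 0 ≤ z * (z - 1) - n / A x ^ 2 := by
      by_contra hcon
      push Not at hcon
      have := div_neg_of_neg_of_pos hcon (show (0 : ℝ) < (1 - x) ^ 2 by positivity)
      linarith
    have e3 : (n : ℝ) / A x ^ 2 ≤ z * (z - 1) := by linarith
    rw [div_le_iff₀ (by positivity)] at e3
    linarith
  have hcore := lp_core (R := Real.exp (-(u n m x))) (N := n) (ν := -(u n m x)) hu hx0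
    (by ring) hB hab hL hi hg hz0 hν (by
      rw [hlog, hz]
      unfold u
      field_simp
      ring) hq' (by linarith [Real.add_one_le_exp (-(u n m x))])
  have hfin : S1 n m x = G n m (1 - x) / (x * (1 - x)) *
      ((1 - x) * (n * (A x - A (1 - x)) / (A x * A (1 - x)) - z) -
        Real.exp (-(u n m x)) * z * x) := by
    unfold S1 psi
    rw [hexp, sub_sub_cancel, hz]
    field_simp
    ring
  rw [hfin]
  apply mul_nonpos_of_nonneg_of_nonpos
  · positivity
  · linarith

end Pool.Agent.T9h64.KU
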